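import Pool.Agent.L0h37.HT.B

/-! Module B of the project HT for general rectangles and radii. -/

set_option autoImplicit false

namespace Pool.Agent.L0h37.HT

open H974 Finset H342P H984P MeasureTheory Filter Topology
open Pool.Agent.L0h89.HT

/-- `S_CLO` for general rectangles and radii. -/
def S_CLO2 : Prop := ∀ (Q : H984N.Rect) (ρ lam r : ℝ), 0 < ρ → ρ ≤ Q.A → ρ ≤ Q.B → ρ ≤ Q.H →
  0 < lam → r < lam * ρ → ∀ η : ℝ, 0 < η → ∃ N : ℕ, ∀ n ≥ N, ∀ ω : H984H.Conf,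
    (H984H.curve n ω,
      (Q.curve (mesh lam n) (fn (Q.dm (mesh lam n)) ω),
        Q.time (mesh lam n) (fn (Q.dm (mesh lam n)) ω))) ∈ K r lam η

theorem s_clo2 (hC : S_CPL) : S_CLO2 := by
  intro Q ρ lam r hρ hQA hQB hQH hlam hr η hη
  obtain ⟨κ, S, δ0, -, -, hδ00, -, hsh⟩ := Q.shape
  have hlim1 : Tendsto (fun n : ℕ => (n : ℝ) ^ (-(4/7) : ℝ)) atTop (𝓝 0) :=
    (tendsto_rpow_neg_atTop (by norm_num : (0 : ℝ) < 4/7)).comp tendsto_natCast_atTop_atTop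
  have hlim3 : Tendsto (fun n : ℕ => (n : ℝ) ^ (-(3/7) : ℝ)) atTop (𝓝 0) :=
    (tendsto_rpow_neg_atTop (by norm_num : (0 : ℝ) < 3/7)).comp tendsto_natCast_atTop_atTop
  have e1 : ∀ᶠ n : ℕ in atTop, 4 * (n : ℝ) ^ (-(4/7) : ℝ) < η := by
    have := hlim1.const_mul 4
    rw [mul_zero] at this
    exact this.eventually_lt_const hη
  have e2 : ∀ᶠ n : ℕ in atTop, (n : ℝ) ^ (-(4/7) : ℝ) < ρ * lam / 8 :=
    hlim1.eventually_lt_const (by positivity)
  have e5 : ∀ᶠ n : ℕ in atTop, (n : ℝ) ^ (-(4/7) : ℝ) < (lam * ρ - r) / 4 :=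
    hlim1.eventually_lt_const (by linarith)
  have e4 : ∀ᶠ n : ℕ in atTop, (n : ℝ) ^ (-(4/7) : ℝ) < δ0 * lam :=
    hlim1.eventually_lt_const (by positivity)
  have e3 : ∀ᶠ n : ℕ in atTop, 4 * (ρ * lam) * (n : ℝ) ^ (-(3/7) : ℝ) + (n : ℝ)⁻¹ < η := by
    have h1 := hlim3.const_mul (4 * (ρ * lam))
    have h2 : Tendsto (fun n : ℕ => ((n : ℝ))⁻¹) atTop (𝓝 0) := tendsto_inv_atTop_nhds_zero_nat
    have h3 := h1.add h2
    rw [mul_zero, add_zero] at h3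
    exact h3.eventually_lt_const hη
  obtain ⟨N, hN⟩ := eventually_atTop.mp (e1.and (e2.and (e3.and (e4.and
    (e5.and (eventually_ge_atTop 1))))))
  refine ⟨N, fun n hn ω => ?_⟩
  obtain ⟨h1, h2, h3, h3', h2', h4⟩ := hN n hn
  have hn0 : (0 : ℝ) < n := by exact_mod_cast h4
  set ε := (n : ℝ) ^ (-(4/7) : ℝ) with hε
  have hε0 : 0 < ε := Real.rpow_pos_of_pos hn0 _
  have hmesh : mesh lam n = ε / lam := by
    unfold mesh
    rw [max_eq_left h4]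
  set δ := mesh lam n with hδd
  have hδ0 : 0 < δ := by rw [hmesh]; positivity
  have hδ : lam * δ = ε := by rw [hmesh]; field_simp
  have hx : ρ / δ = ρ * lam / ε := by
    rw [← hδ]
    field_simp
  have hx8 : 8 < ρ / δ := by
    rw [hx, lt_div_iff₀ hε0]
    linarith
  obtain ⟨c, hc⟩ : ∃ c : ℤ, c = ⌈ρ / δ⌉ := ⟨_, rfl⟩
  have hc1 : ρ / δ ≤ c := by rw [hc]; exact Int.le_ceil _
  have hc2 : (c : ℝ) < ρ / δ + 1 := by rw [hc]; exact Int.ceil_lt_add_one _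
  have hc8 : 8 < c := by
    have : (8 : ℝ) < c := by linarith
    exact_mod_cast this
  have hle : ∀ x : ℝ, ρ ≤ x → c ≤ ⌈x / δ⌉ := by
    intro x hx
    rw [hc]
    exact Int.ceil_le_ceil (div_le_div_of_nonneg_right hx hδ0.le)
  obtain ⟨D, hD⟩ : ∃ D : H984N.Dm, D = Q.dm δ := ⟨_, rfl⟩
  have hDl : D.l ≤ -c + 1 := by
    have h5 := hle _ hQA
    rw [hD]
    show ⌊-(Q.A / δ)⌋ + 1 ≤ _
    rw [Int.floor_neg]
    omega
  have hDr : c - 1 ≤ D.r := by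
    have h5 := hle _ hQB
    rw [hD]
    show c - 1 ≤ ⌈Q.B / δ⌉ - 1
    omega
  have hDh : c - 2 ≤ D.h := by
    have h5 := hle _ hQH
    rw [hD]
    show c - 2 ≤ ⌈Q.H / δ⌉ - 2
    omega
  have hOk : D.Ok := by
    rw [hD]
    refine (hsh δ hδ0 ?_).ok
    rw [hmesh, div_le_iff₀ hlam]
    exact h3'.le
  obtain ⟨R, hR⟩ : ∃ R : ℕ, (R : ℤ) = c - 2 := ⟨(c - 2).toNat, Int.toNat_of_nonneg (by omega)⟩
  have hRr : (R : ℝ) = c - 2 := by exact_mod_cast hR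
  rw [← hD]
  intro s hs
  obtain ⟨len, hlen⟩ : ∃ len : ℕ, len = D.len (fn D ω) := ⟨_, rfl⟩
  have hT : lam ^ (7/4 : ℝ) * Q.time δ (fn D ω) = len / n := by
    unfold H984N.Rect.time
    rw [← hD, ← hlen, ← mul_assoc, ← Real.mul_rpow hlam.le hδ0.le, hδ, hε,
      ← Real.rpow_mul hn0.le]
    norm_num
    rw [Real.rpow_neg_one]
    field_simp
  obtain ⟨k, hk, hk1, hk2⟩ := H984N.pl_exists_seg (by omega : 0 < n) s
  have hbox : ∀ j ≤ k, H984N.sd (H984H.path ω j).1 (0, 0) < (R : ℤ) - 1 := by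
    intro j hj
    have hjr : (j : ℝ) ≤ k := by exact_mod_cast hj
    have hjn : (j : ℝ) / n ≤ s := by
      rw [div_le_iff₀ hn0]
      linarith
    have hj0 : (0 : ℝ) ≤ (j : ℝ) / n := by positivity
    have hu := hs ⟨(j : ℝ) / n, hj0, hjn.trans s.2.2⟩ hjn
    have hv : H984H.curve n ω ⟨(j : ℝ) / n, hj0, hjn.trans s.2.2⟩ = ((ε : ℝ) : ℂ) * H984H.gam ω j := by
      unfold H984H.curve
      rw [pl_node (k := j) (by omega) (by show (j : ℝ) / n * n = j; field_simp)]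
    have hu' : ‖H984H.curve n ω ⟨(j : ℝ) / n, hj0, hjn.trans s.2.2⟩‖ < r := hu
    rw [hv, norm_mul, Complex.norm_real, Real.norm_eq_abs, abs_of_pos hε0] at hu'
    have h5 : ‖H984H.gam ω j‖ < ρ / δ - 13/4 := by
      have h8 : ε * ‖H984H.gam ω j‖ < ε * (ρ / δ - 13/4) := by
        have h9 : ε * (ρ / δ - 13/4) = lam * ρ - 13/4 * ε := by
          rw [hx]
          field_simp
        rw [h9]
        linarith
      exact lt_of_mul_lt_mul_left h8 hε0.le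
    have h6 : ((H984N.sd (H984H.path ω j).1 (0, 0) : ℤ) : ℝ) - 1/4 ≤ ‖H984H.gam ω j‖ :=
      H984H.le_norm_place (H984H.path ω j)
    have h7 : ((H984N.sd (H984H.path ω j).1 (0, 0) : ℤ) : ℝ) < ((R : ℤ) : ℝ) - 1 := by
      rw [hR]
      push_cast
      linarith
    exact_mod_cast h7
  obtain ⟨m, hm1, hm2, hm3, hm4⟩ := hC D hOk R (by omega) (by omega) (by omega) (by omega) ω k hbox
  rw [← hlen] at hm3 hm4
  have hlm : ((len - m : ℕ) : ℝ) = (len : ℝ) - m := by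
    rw [Nat.cast_sub hm3]
  have hu0 : (0 : ℝ) ≤ ((len - m : ℕ) : ℝ) / len := by positivity
  have hu1 : ((len - m : ℕ) : ℝ) / len ≤ 1 := by
    apply div_le_one_of_le₀ _ (Nat.cast_nonneg _)
    exact_mod_cast Nat.sub_le _ _
  have hul : ((len - m : ℕ) : ℝ) / len * len = ((len - m : ℕ) : ℝ) := by
    rcases Nat.eq_zero_or_pos len with h0 | h0
    · rw [h0]; simp
    · have : (len : ℝ) ≠ 0 := by positivity
      field_simp
  refine ⟨⟨((len - m : ℕ) : ℝ) / len, hu0, hu1⟩, ?_, ?_⟩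
  · show |((len - m : ℕ) : ℝ) / len * (lam ^ (7/4 : ℝ) * Q.time δ (fn D ω)) + s -
      lam ^ (7/4 : ℝ) * Q.time δ (fn D ω)| ≤ η
    rw [hT]
    have e5 : ((len - m : ℕ) : ℝ) / len * (len / n) + s - len / n = (s * n - m) / n := by
      have : ((len - m : ℕ) : ℝ) / len * (len / n) = ((len : ℝ) - m) / n := by
        rw [← mul_div_assoc, hul, hlm]
      rw [this]
      field_simp
      ring
    rw [e5]
    have hm1' : (m : ℝ) ≤ k := by exact_mod_cast hm1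
    have hm2' : (k : ℝ) ≤ m + 4 * R := by exact_mod_cast hm2
    rw [abs_of_nonneg (div_nonneg (by linarith) hn0.le)]
    have h8 : (s : ℝ) * n - m ≤ 4 * (ρ * lam / ε) + 1 := by
      rw [← hx]
      linarith
    have h9 : ε⁻¹ / n = (n : ℝ) ^ (-(3/7) : ℝ) := by
      rw [hε, ← Real.rpow_neg hn0.le]
      nth_rewrite 2 [← Real.rpow_one (n : ℝ)]
      rw [← Real.rpow_sub hn0]
      norm_num
    calc ((s : ℝ) * n - m) / n ≤ (4 * (ρ * lam / ε) + 1) / n := div_le_div_of_nonneg_right h8 hn0.le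
      _ = 4 * (ρ * lam) * (ε⁻¹ / n) + (n : ℝ)⁻¹ := by field_simp
      _ = 4 * (ρ * lam) * (n : ℝ) ^ (-(3/7) : ℝ) + (n : ℝ)⁻¹ := by rw [h9]
      _ ≤ η := h3.le
  · show dist (H984H.curve n ω s) ((lam : ℂ) * rf (Q.curve δ (fn D ω)
      ⟨((len - m : ℕ) : ℝ) / len, hu0, hu1⟩)) ≤ η
    have e6 : Q.curve δ (fn D ω) ⟨((len - m : ℕ) : ℝ) / len, hu0, hu1⟩ =
        (δ : ℂ) * H984N.pos 1 (D.walk (fn D ω) (len - m)) := by
      unfold H984N.Rect.curve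
      rw [← hD, ← hlen, pl_node (k := len - m) (Nat.sub_le _ _) hul, pos_smul]
    rw [e6, rf_smul, ← mul_assoc]
    have e7 : (lam : ℂ) * (δ : ℂ) = ((ε : ℝ) : ℂ) := by rw [← hδ]; push_cast; rfl
    rw [e7]
    have e8 : dist (H984H.curve n ω s) (((ε : ℝ) : ℂ) * H984H.gam ω k) ≤ ε * 1 := by
      unfold H984H.curve
      rw [H984N.pl_seg hk hk1 hk2, dist_eq_norm]
      have e : ((ε : ℝ) : ℂ) * H984H.gam ω k + (((s : ℝ) * n - k : ℝ) : ℂ) *
          (((ε : ℝ) : ℂ) * H984H.gam ω (k + 1) - ((ε : ℝ) : ℂ) * H984H.gam ω k) -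
          ((ε : ℝ) : ℂ) * H984H.gam ω k =
          ((ε : ℝ) : ℂ) * ((((s : ℝ) * n - k : ℝ) : ℂ) * (H984H.gam ω (k + 1) - H984H.gam ω k)) := by
        ring
      rw [e, norm_mul, norm_mul, Complex.norm_real, Complex.norm_real, Real.norm_eq_abs,
        Real.norm_eq_abs, abs_of_pos hε0, abs_of_nonneg (by linarith)]
      apply mul_le_mul_of_nonneg_left _ hε0.le
      have h5 := H984H.gam_step ω k
      rw [dist_comm, dist_eq_norm] at h5
      have h6 := norm_nonneg (H984H.gam ω (k + 1) - H984H.gam ω k)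
      nlinarith
    have e9 : dist (((ε : ℝ) : ℂ) * H984H.gam ω k)
        (((ε : ℝ) : ℂ) * rf (H984N.pos 1 (D.walk (fn D ω) (len - m)))) ≤ ε * 3 := by
      rw [dist_eq_norm, ← mul_sub, norm_mul, Complex.norm_real, Real.norm_eq_abs, abs_of_pos hε0,
        ← dist_eq_norm]
      exact mul_le_mul_of_nonneg_left hm4 hε0.le
    calc _ ≤ _ := dist_triangle _ (((ε : ℝ) : ℂ) * H984H.gam ω k) _
      _ ≤ ε * 1 + ε * 3 := add_le_add e8 e9
      _ ≤ η := by linarith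

end Pool.Agent.L0h37.HT
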