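import Pool.Agent.H984R4.HN.Perc
import Pool.Agent.L0h89.HT.Stm

/-! Module C of the project HT: the law of the configuration in the rectangle. -/

set_option autoImplicit false

namespace Pool.Agent.L0h37.HT

open H974 Finset H342P H984P MeasureTheory
open Pool.Agent.L0h89.HT

theorem th_inj : Function.Injective th := by
  rintro ⟨x, y, b⟩ ⟨x', y', b'⟩ h
  cases b <;> cases b' <;> simp [th] at h ⊢ <;> omega

theorem fn_sub (D : H984N.Dm) (ω : H984H.Conf) : fn D ω ⊆ D.edges := Finset.filter_subset _ _

theorem fn_pi (D : H984N.Dm) {T : Finset Edg} (hT : T ⊆ D.edges) :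
    {ω : H984H.Conf | fn D ω = T} = Set.pi (↑(D.edges.image th) : Set Edg)
      (fun g => {b : Bool | b = false ↔ g ∈ T.image th}) := by
  ext ω
  rw [Set.mem_pi]
  constructor
  · intro h g hg
    have h' : fn D ω = T := h
    obtain ⟨e, he, rfl⟩ := Finset.mem_image.mp (Finset.mem_coe.mp hg)
    show ω (th e) = false ↔ th e ∈ T.image th
    rw [th_inj.mem_finset_image, ← h']
    unfold fn
    rw [Finset.mem_filter]
    exact ⟨fun h => ⟨he, h⟩, fun h => h.2⟩
  · intro h
    show fn D ω = T
    ext e
    unfold fn
    rw [Finset.mem_filter]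
    constructor
    · rintro ⟨he, hω⟩
      have := (h (th e) (Finset.mem_coe.mpr (Finset.mem_image_of_mem th he))).mp hω
      rwa [th_inj.mem_finset_image] at this
    · intro he
      refine ⟨hT he, (h (th e) (Finset.mem_coe.mpr (Finset.mem_image_of_mem th (hT he)))).mpr ?_⟩
      exact Finset.mem_image_of_mem th he

theorem fn_meas (D : H984N.Dm) (T : Finset Edg) : MeasurableSet {ω : H984H.Conf | fn D ω = T} := by
  by_cases hT : T ⊆ D.edges
  · rw [fn_pi D hT]
    exact MeasurableSet.pi (Finset.countable_toSet _) (fun _ _ => MeasurableSet.of_discrete)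
  · have : {ω : H984H.Conf | fn D ω = T} = ∅ := by
      ext ω
      simp only [Set.mem_empty_iff_false, iff_false]
      intro h
      have h' : fn D ω = T := h
      exact hT (h' ▸ fn_sub D ω)
    rw [this]
    exact MeasurableSet.empty

theorem fn_prob (D : H984N.Dm) {T : Finset Edg} (hT : T ⊆ D.edges) :
    H984H.perc.real {ω : H984H.Conf | fn D ω = T} = (1/2 : ℝ) ^ D.edges.card := by
  classical
  unfold H984H.perc
  rw [measureReal_def, fn_pi D hT]
  rw [Measure.infinitePi_pi _ (fun _ _ => MeasurableSet.of_discrete), ENNReal.toReal_prod]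
  have h1 : ∀ e ∈ D.edges.image th, ((PMF.uniformOfFintype Bool).toMeasure
      {b : Bool | b = false ↔ e ∈ T.image th}).toReal = 1/2 := by
    intro e _
    by_cases he : e ∈ T.image th
    · have : {b : Bool | b = false ↔ e ∈ T.image th} = {false} := by
        ext b; simp only [he, iff_true, Set.mem_ofPred_eq, Set.mem_singleton_iff]
      rw [this, H984H.Perc_coin_eq]; simp
    · have : {b : Bool | b = false ↔ e ∈ T.image th} = {true} := by
        ext b
        simp only [he, iff_false, Set.mem_ofPred_eq, Set.mem_singleton_iff]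
        cases b <;> simp
      rw [this, H984H.Perc_coin_eq]; simp
  rw [Finset.prod_congr rfl h1, Finset.prod_const, Finset.card_image_of_injective _ th_inj]

theorem fn_g_meas {β : Type*} [MeasurableSpace β] (D : H984N.Dm) (g : Finset Edg → β) :
    Measurable (fun ω : H984H.Conf => g (fn D ω)) := by
  intro s _
  have h : (fun ω : H984H.Conf => g (fn D ω)) ⁻¹' s =
      ⋃ T ∈ {T : Finset Edg | g T ∈ s}, {ω : H984H.Conf | fn D ω = T} := by
    ext ω
    simp only [Set.mem_preimage, Set.mem_iUnion, Set.mem_ofPred_eq, exists_prop]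
    exact ⟨fun h => ⟨_, h, rfl⟩, fun ⟨T, h1, h2⟩ => by rw [h2]; exact h1⟩
  rw [h]
  exact MeasurableSet.biUnion (Set.to_countable _) (fun T _ => fn_meas D T)

theorem fn_int (D : H984N.Dm) (g : Finset Edg → ℝ) :
    ∫ ω, g (fn D ω) ∂H984H.perc = H984N.E D.edges g := by
  classical
  have h : ∀ ω : H984H.Conf, g (fn D ω) = ∑ T ∈ D.edges.powerset,
      Set.indicator {ω : H984H.Conf | fn D ω = T} (fun _ => g T) ω := by
    intro ω
    rw [Finset.sum_eq_single (fn D ω)]
    · rw [Set.indicator_of_mem]
      exact rfl
    · intro T _ hT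
      rw [Set.indicator_of_notMem]
      intro h
      exact hT (show fn D ω = T from h).symm
    · intro h
      exact absurd (Finset.mem_powerset.mpr (fn_sub D ω)) h
  rw [integral_congr_ae (Filter.Eventually.of_forall h)]
  rw [integral_finsetSum]
  · have hE : H984N.E D.edges g = (1/2) ^ D.edges.card * ∑ F ∈ D.edges.powerset, g F :=
      H984N.Ex_half D.edges g
    rw [hE, Finset.mul_sum]
    apply Finset.sum_congr rfl
    intro T hT
    rw [integral_indicator_const _ (fn_meas D T), fn_prob D (Finset.mem_powerset.mp hT),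
      smul_eq_mul]
  · intro T _
    exact (integrable_const _).indicator (fn_meas D T)

theorem s_law : S_LAW := by
  classical
  intro D A
  have hm : MeasurableSet {ω : H984H.Conf | A (fn D ω)} := by
    have := fn_g_meas D (fun F => ind (A F)) (measurableSet_singleton (1 : ℝ))
    convert this using 1
    ext ω
    simp only [Set.mem_ofPred_eq, Set.mem_preimage, Set.mem_singleton_iff]
    constructor
    · exact fun h => ind_of h
    · intro h
      by_contra hA
      rw [ind_not_of hA] at h
      norm_num at h
  refine ⟨hm, ?_⟩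
  have h := fn_int D (fun F => ind (A F))
  show H984N.E D.edges (fun F => ind (A F)) = _
  rw [← h, ← integral_indicator_one hm]
  apply integral_congr_ae
  apply Filter.Eventually.of_forall
  intro ω
  by_cases hA : A (fn D ω)
  · show ind _ = Set.indicator _ _ ω
    rw [ind_of hA, Set.indicator_of_mem (show ω ∈ {ω | A (fn D ω)} from hA)]
    rfl
  · show ind _ = Set.indicator _ _ ω
    rw [ind_not_of hA, Set.indicator_of_notMem (show ω ∉ {ω | A (fn D ω)} from hA)]

end Pool.Agent.L0h37.HT
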