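import Pool.Agent.H984R4.NP.MeshB
import Pool.Agent.H984R4.NP.Exist
import Pool.Agent.L0h89.HT.StmJ
import Pool.Agent.L0h37.HT.B
import Pool.Agent.L0h37.HT.C

/-! Module D of the project HT: joint limits. -/

set_option autoImplicit false

namespace Pool.Agent.L0h37.HT

open H974 Finset H342P H984P MeasureTheory Filter Topology
open Pool.Agent.L0h89.HT

/-- The curve in the half-plane, and the curve and its time in the rectangle. -/
noncomputable def jv (R : H984N.Rect) (lam : ℝ) (n : ℕ) (ω : H984H.Conf) :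
    C(unitInterval, ℂ) × H984N.X :=
  (H984H.curve n ω,
    (R.curve (mesh lam n) (fn (R.dm (mesh lam n)) ω),
      R.time (mesh lam n) (fn (R.dm (mesh lam n)) ω)))

theorem jv_meas (R : H984N.Rect) (lam : ℝ) (n : ℕ) : Measurable (jv R lam n) :=
  (H984H.curve_meas n).prodMk
    (fn_g_meas (R.dm (mesh lam n))
      (fun F => ((R.curve (mesh lam n) F, R.time (mesh lam n) F) : H984N.X)))

/-- The joint law. -/
noncomputable def jl (R : H984N.Rect) (lam : ℝ) (n : ℕ) :
    ProbabilityMeasure (C(unitInterval, ℂ) × H984N.X) :=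
  ⟨H984H.perc.map (jv R lam n), Measure.isProbabilityMeasure_map (jv_meas R lam n).aemeasurable⟩

theorem jl_fst (R : H984N.Rect) (lam : ℝ) (n : ℕ) :
    (jl R lam n : Measure (C(unitInterval, ℂ) × H984N.X)).map Prod.fst =
      (H984H.lawH n : Measure C(unitInterval, ℂ)) := by
  show (H984H.perc.map (jv R lam n)).map Prod.fst = H984H.perc.map (H984H.curve n)
  rw [Measure.map_map measurable_fst (jv_meas R lam n)]
  rfl

theorem jl_snd (h2 : S_LAW) (R : H984N.Rect) (lam : ℝ) (n : ℕ) :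
    (jl R lam n : Measure (C(unitInterval, ℂ) × H984N.X)).map Prod.snd =
      (R.law (mesh lam n) : Measure H984N.X) := by
  show (H984H.perc.map (jv R lam n)).map Prod.snd = _
  rw [Measure.map_map measurable_snd (jv_meas R lam n)]
  ext G hG
  rw [Measure.map_apply (measurable_snd.comp (jv_meas R lam n)) hG, R.law_apply _ hG]
  have h := (h2 (R.dm (mesh lam n))
    (fun F => ((R.curve (mesh lam n) F, R.time (mesh lam n) F) : H984N.X) ∈ G)).2
  unfold H984N.Rect.prob
  rw [h, ofReal_measureReal]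
  rfl

theorem mesh_pos {lam : ℝ} (h : 0 < lam) (n : ℕ) : 0 < mesh lam n := by
  unfold mesh
  have : (0 : ℝ) < ((max n 1 : ℕ) : ℝ) := by
    have : 0 < max n 1 := lt_max_of_lt_right one_pos
    exact_mod_cast this
  positivity

theorem mesh_lim (lam : ℝ) : Tendsto (mesh lam) atTop (𝓝 0) := by
  have h1 : Tendsto (fun n : ℕ => (n : ℝ) ^ (-(4/7) : ℝ)) atTop (𝓝 0) :=
    (tendsto_rpow_neg_atTop (by norm_num : (0 : ℝ) < 4/7)).comp tendsto_natCast_atTop_atTop
  have h2 : Tendsto (fun n : ℕ => max n 1) atTop atTop :=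
    tendsto_atTop_mono (fun n => le_max_left n 1) tendsto_id
  have h3 := (h1.comp h2).div_const lam
  rw [zero_div] at h3
  exact h3

theorem lawN_tight (R : H984N.Rect) {β : ℝ} (hβ : 0 < β) (hT : R.TightH β) {δ : ℕ → ℝ}
    (hδ : ∀ i, 0 < δ i) (hlim : Tendsto δ atTop (𝓝 0)) {ε : ℝ} (hε' : 0 < ε) :
    ∃ K : Set H984N.X, IsCompact K ∧
      ∀ i, (R.law (δ i) : Measure H984N.X) Kᶜ ≤ ENNReal.ofReal ε := by
  classical
  obtain ⟨Λ, δ0, _, hδ0, hprob⟩ := hT ε hε'
  obtain ⟨N, hN⟩ := eventually_atTop.mp (hlim.eventually_lt_const hδ0)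
  set T : ℕ → Set H984N.X := fun i => ↑((R.dm (δ i)).edges.powerset.image
    (fun F => (R.curve (δ i) F, R.time (δ i) F))) with hTdef
  set K : Set H984N.X := H984N.Good β Λ ∪ ⋃ i ∈ Finset.range N, T i with hK
  have hKc : IsCompact K := by
    apply (H984N.good_compact hβ).union
    apply (Finset.range N).isCompact_biUnion
    intro i _
    exact (Finset.finite_toSet _).isCompact
  refine ⟨K, hKc, ?_⟩
  intro i
  rw [R.law_apply (δ i) hKc.isClosed.measurableSet.compl]
  rcases Nat.lt_or_ge i N with hi | hi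
  · rw [H984N.Exist_prob_false, ENNReal.ofReal_zero]
    · exact bot_le
    · intro F hF hcon
      apply hcon
      right
      rw [Set.mem_iUnion₂]
      refine ⟨i, Finset.mem_range.mpr hi, ?_⟩
      rw [hTdef]
      exact Finset.mem_coe.mpr (Finset.mem_image.mpr ⟨F, Finset.mem_powerset.mpr hF, rfl⟩)
  · apply ENNReal.ofReal_le_ofReal
    refine (H984N.Exist_prob_mono R (δ i) ?_).trans (hprob (δ i) (hδ i) (hN i hi).le)
    intro F _ h1 h2
    exact h1 (Or.inl h2)

/-- Joint limits for general rectangles. -/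
def S_JNTR : Prop := ∀ (R : H984N.Rect) (ρ lam : ℝ), 0 < ρ → ρ ≤ R.A → ρ ≤ R.B → ρ ≤ R.H →
  0 < lam → ∀ μ : ProbabilityMeasure C(unitInterval, ℂ), IsLimH μ →
    ∃ P : ProbabilityMeasure (C(unitInterval, ℂ) × H984N.X),
      (P : Measure (C(unitInterval, ℂ) × H984N.X)).map Prod.fst = (μ : Measure _) ∧
      (∃ ν : ProbabilityMeasure H984N.X, IsLimN R ν ∧
        (P : Measure (C(unitInterval, ℂ) × H984N.X)).map Prod.snd = (ν : Measure _)) ∧
      ∀ η : ℝ, 0 < η →
        ∀ᵐ q ∂(P : Measure (C(unitInterval, ℂ) × H984N.X)), q ∈ K (lam * ρ / 2) lam η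

theorem s_jntR (h1 : S_CLOR) (h2 : S_LAW) (h3 : S_KCL) {c C : ℝ} (hc : 0 < c) (hC : 0 < C)
    (hL : LowA c (1/4)) (hU : TwoUp C (1/4)) : S_JNTR := by
  intro R ρ lam hρ hA hB hH hlam μ hμ
  obtain ⟨φ, hφ, hlim⟩ := hμ
  have hT : R.TightH (1/2) := H984N.tightH_of hc hC hL hU R (by norm_num) (by norm_num)
  have hδ : ∀ i, 0 < mesh lam (φ i) := fun i => mesh_pos hlam _
  have hδl : Tendsto (fun i => mesh lam (φ i)) atTop (𝓝 0) := (mesh_lim lam).comp hφ
  set S : Set (ProbabilityMeasure (C(unitInterval, ℂ) × H984N.X)) :=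
    Set.range (fun i => jl R lam (φ i)) with hS
  have htight : IsTightMeasureSet
      {((ν : ProbabilityMeasure (C(unitInterval, ℂ) × H984N.X)) :
        Measure (C(unitInterval, ℂ) × H984N.X)) | ν ∈ S} := by
    rw [isTightMeasureSet_iff_exists_isCompact_measure_compl_le]
    intro ε hε
    by_cases htop : ε = ⊤
    · exact ⟨∅, isCompact_empty, fun ν _ => by rw [htop]; exact le_top⟩
    have hε' : 0 < ε.toReal / 2 := half_pos (ENNReal.toReal_pos hε.ne' htop)
    obtain ⟨Λ, hΛ, t1⟩ := H984H.lawH_tight hc hC hL hU (β := 1/2) (by norm_num) (by norm_num) hε'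
    obtain ⟨K2, hK2, t2⟩ := lawN_tight R (β := 1/2) (by norm_num) hT hδ hδl hε'
    have hK1 := H984H.goodC_compact (β := 1/2) (by norm_num) hΛ
    refine ⟨H984H.GoodC (1/2) Λ ×ˢ K2, hK1.prod hK2, ?_⟩
    rintro ν ⟨ν', ⟨i, rfl⟩, rfl⟩
    have e1 := t1 (φ i)
    have e2 := t2 i
    rw [← jl_fst R lam (φ i), Measure.map_apply measurable_fst hK1.isClosed.measurableSet.compl]
      at e1
    rw [← jl_snd h2 R lam (φ i), Measure.map_apply measurable_snd
      hK2.isClosed.measurableSet.compl] at e2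
    have hsub : (H984H.GoodC (1/2) Λ ×ˢ K2)ᶜ ⊆
        (Prod.fst ⁻¹' (H984H.GoodC (1/2) Λ)ᶜ) ∪ (Prod.snd ⁻¹' K2ᶜ) := by
      intro q hq
      by_contra hcon
      rw [Set.mem_union, not_or, Set.mem_preimage, Set.mem_preimage, Set.notMem_compl_iff,
        Set.notMem_compl_iff] at hcon
      exact hq hcon
    calc (jl R lam (φ i) : Measure (C(unitInterval, ℂ) × H984N.X))
          (H984H.GoodC (1/2) Λ ×ˢ K2)ᶜ
        ≤ (jl R lam (φ i) : Measure (C(unitInterval, ℂ) × H984N.X))
          ((Prod.fst ⁻¹' (H984H.GoodC (1/2) Λ)ᶜ) ∪ (Prod.snd ⁻¹' K2ᶜ)) := measure_mono hsub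
      _ ≤ ENNReal.ofReal (ε.toReal / 2) + ENNReal.ofReal (ε.toReal / 2) :=
          (measure_union_le _ _).trans (add_le_add e1 e2)
      _ = ε := by
          rw [← ENNReal.ofReal_add hε'.le hε'.le, add_halves, ENNReal.ofReal_toReal htop]
  have hcomp := isCompact_closure_of_isTightMeasureSet htight
  obtain ⟨P, _, ψ, hψ, hP⟩ := hcomp.tendsto_subseq
    (x := fun i => jl R lam (φ i)) (fun i => subset_closure ⟨i, rfl⟩)
  have hP' : Tendsto (fun i => jl R lam (φ (ψ i))) atTop (𝓝 P) := hP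
  have m1 := ProbabilityMeasure.tendsto_map_of_tendsto_of_continuous _ _ hP'
    (continuous_fst : Continuous (Prod.fst : C(unitInterval, ℂ) × H984N.X → C(unitInterval, ℂ)))
  have m2 := ProbabilityMeasure.tendsto_map_of_tendsto_of_continuous _ _ hP'
    (continuous_snd : Continuous (Prod.snd : C(unitInterval, ℂ) × H984N.X → H984N.X))
  refine ⟨P, ?_, ⟨P.map measurable_snd.aemeasurable, ⟨fun i => mesh lam (φ (ψ i)), fun i => hδ _,
    hδl.comp hψ.tendsto_atTop, ?_⟩, rfl⟩, ?_⟩
  · have hlim' : Tendsto (fun i => H984H.lawH (φ (ψ i))) atTop (𝓝 μ) :=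
      hlim.comp hψ.tendsto_atTop
    have hcongr : (fun i => (jl R lam (φ (ψ i))).map
        (continuous_fst : Continuous (Prod.fst : C(unitInterval, ℂ) × H984N.X →
          C(unitInterval, ℂ))).measurable.aemeasurable) = fun i => H984H.lawH (φ (ψ i)) := by
      funext i
      apply Subtype.ext
      exact jl_fst R lam (φ (ψ i))
    rw [hcongr] at m1
    have := tendsto_nhds_unique m1 hlim'
    have h5 := congrArg (fun ν : ProbabilityMeasure C(unitInterval, ℂ) =>
      (ν : Measure C(unitInterval, ℂ))) this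
    exact h5
  · have hcongr : (fun i => (jl R lam (φ (ψ i))).map
        (continuous_snd : Continuous (Prod.snd : C(unitInterval, ℂ) × H984N.X →
          H984N.X)).measurable.aemeasurable) = fun i => R.law (mesh lam (φ (ψ i))) := by
      funext i
      apply Subtype.ext
      exact jl_snd h2 R lam (φ (ψ i))
    rw [hcongr] at m2
    exact m2
  · intro η hη
    obtain ⟨N, hN⟩ := h1 R ρ lam hρ hA hB hH hlam η hη
    have hG : IsClosed (K (lam * ρ / 2) lam η) := h3.1 _ _ _
    rw [ae_iff]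
    have h4 := ProbabilityMeasure.le_liminf_measure_open_of_tendsto hP' hG.isOpen_compl
    have h5 : ∀ᶠ i in atTop, (jl R lam (φ (ψ i)) : Measure (C(unitInterval, ℂ) × H984N.X))
        (K (lam * ρ / 2) lam η)ᶜ ≤ 0 := by
      filter_upwards [(hφ.comp hψ.tendsto_atTop).eventually_ge_atTop N] with i hi
      show (H984H.perc.map (jv R lam (φ (ψ i)))) _ ≤ 0
      rw [Measure.map_apply (jv_meas R lam _) hG.measurableSet.compl]
      have : jv R lam (φ (ψ i)) ⁻¹' (K (lam * ρ / 2) lam η)ᶜ = ∅ := by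
        ext ω
        simp only [Set.mem_preimage, Set.mem_compl_iff, Set.mem_empty_iff_false, iff_false,
          not_not]
        exact hN _ hi ω
      rw [this, measure_empty]
    have h6 : liminf (fun i => (jl R lam (φ (ψ i)) : Measure (C(unitInterval, ℂ) × H984N.X))
        (K (lam * ρ / 2) lam η)ᶜ) atTop ≤ 0 := by
      calc _ ≤ liminf (fun _ : ℕ => (0 : ENNReal)) atTop := liminf_le_liminf h5
        _ = 0 := liminf_const _
    exact le_antisymm (h4.trans h6) bot_le

theorem s_jnt (h1 : S_CPL) (h3 : S_KCL) {c C : ℝ} (hc : 0 < c) (hC : 0 < C)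
    (hL : LowA c (1/4)) (hU : TwoUp C (1/4)) : S_JNT := by
  intro ρ lam hρ hlam μ hμ
  exact s_jntR (s_cloR h1) s_law h3 hc hC hL hU (Sq ρ hρ) ρ lam hρ le_rfl le_rfl le_rfl hlam μ hμ

end Pool.Agent.L0h37.HT
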