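import Pool.Agent.L0h89.HT.StmL
import Pool.Agent.L0h37.HT.B2
import Pool.Agent.L0h37.HT.D

/-! Module D of the project HT for general rectangles and radii. -/

set_option autoImplicit false

namespace Pool.Agent.L0h37.HT

open H974 Finset H342P H984P MeasureTheory Filter Topology
open Pool.Agent.L0h89.HT

theorem s_jnt2 (h1 : S_CLO2) (h2 : S_LAW) (h3 : S_KCL) {c C : ℝ} (hc : 0 < c) (hC : 0 < C)
    (hL : LowA c (1/4)) (hU : TwoUp C (1/4)) : Pool.Agent.L0h89.HT.S_JNTR := by
  intro R ρ lam r hρ hA hB hH hlam hr μ hμ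
  obtain ⟨φ, hφ, hlim⟩ := hμ
  have hT : R.TightH (1/2) := H984N.tightH_of hc hC hL hU R (by norm_num) (by norm_num)
  have hδ : ∀ i, 0 < mesh lam (φ i) := fun i => mesh_pos hlam _
  have hδl : Tendsto (fun i => mesh lam (φ i)) atTop (𝓝 0) := (mesh_lim lam).comp hφ
  set S : Set (ProbabilityMeasure (C(unitInterval, ℂ) × H984N.X)) :=
    Set.range (fun i => jl R lam (φ i)) with hS
  have htight : IsTightMeasureSet
      {((ν : ProbabilityMeasure (C(unitInterval, ℂ) × H984N.X)) :
        Measure (C(unitInterval, ℂ) × H984N.X)) | ν ∈ S} := by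
    rw [isTightMeasureSet_iff_exists_isCompact_measure_compl_le]
    intro ε hε
    by_cases htop : ε = ⊤
    · exact ⟨∅, isCompact_empty, fun ν _ => by rw [htop]; exact le_top⟩
    have hε' : 0 < ε.toReal / 2 := half_pos (ENNReal.toReal_pos hε.ne' htop)
    obtain ⟨Λ, hΛ, t1⟩ := H984H.lawH_tight hc hC hL hU (β := 1/2) (by norm_num) (by norm_num) hε'
    obtain ⟨K2, hK2, t2⟩ := lawN_tight R (β := 1/2) (by norm_num) hT hδ hδl hε'
    have hK1 := H984H.goodC_compact (β := 1/2) (by norm_num) hΛ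
    refine ⟨H984H.GoodC (1/2) Λ ×ˢ K2, hK1.prod hK2, ?_⟩
    rintro ν ⟨ν', ⟨i, rfl⟩, rfl⟩
    have e1 := t1 (φ i)
    have e2 := t2 i
    rw [← jl_fst R lam (φ i), Measure.map_apply measurable_fst hK1.isClosed.measurableSet.compl]
      at e1
    rw [← jl_snd h2 R lam (φ i), Measure.map_apply measurable_snd
      hK2.isClosed.measurableSet.compl] at e2
    have hsub : (H984H.GoodC (1/2) Λ ×ˢ K2)ᶜ ⊆
        (Prod.fst ⁻¹' (H984H.GoodC (1/2) Λ)ᶜ) ∪ (Prod.snd ⁻¹' K2ᶜ) := by
      intro q hq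
      by_contra hcon
      rw [Set.mem_union, not_or, Set.mem_preimage, Set.mem_preimage, Set.notMem_compl_iff,
        Set.notMem_compl_iff] at hcon
      exact hq hcon
    calc (jl R lam (φ i) : Measure (C(unitInterval, ℂ) × H984N.X))
          (H984H.GoodC (1/2) Λ ×ˢ K2)ᶜ
        ≤ (jl R lam (φ i) : Measure (C(unitInterval, ℂ) × H984N.X))
          ((Prod.fst ⁻¹' (H984H.GoodC (1/2) Λ)ᶜ) ∪ (Prod.snd ⁻¹' K2ᶜ)) := measure_mono hsub
      _ ≤ ENNReal.ofReal (ε.toReal / 2) + ENNReal.ofReal (ε.toReal / 2) :=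
          (measure_union_le _ _).trans (add_le_add e1 e2)
      _ = ε := by
          rw [← ENNReal.ofReal_add hε'.le hε'.le, add_halves, ENNReal.ofReal_toReal htop]
  have hcomp := isCompact_closure_of_isTightMeasureSet htight
  obtain ⟨P, _, ψ, hψ, hP⟩ := hcomp.tendsto_subseq
    (x := fun i => jl R lam (φ i)) (fun i => subset_closure ⟨i, rfl⟩)
  have hP' : Tendsto (fun i => jl R lam (φ (ψ i))) atTop (𝓝 P) := hP
  have m1 := ProbabilityMeasure.tendsto_map_of_tendsto_of_continuous _ _ hP'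
    (continuous_fst : Continuous (Prod.fst : C(unitInterval, ℂ) × H984N.X → C(unitInterval, ℂ)))
  have m2 := ProbabilityMeasure.tendsto_map_of_tendsto_of_continuous _ _ hP'
    (continuous_snd : Continuous (Prod.snd : C(unitInterval, ℂ) × H984N.X → H984N.X))
  refine ⟨P, ?_, ⟨P.map measurable_snd.aemeasurable, ⟨fun i => mesh lam (φ (ψ i)), fun i => hδ _,
    hδl.comp hψ.tendsto_atTop, ?_⟩, rfl⟩, ?_⟩
  · have hlim' : Tendsto (fun i => H984H.lawH (φ (ψ i))) atTop (𝓝 μ) :=
      hlim.comp hψ.tendsto_atTop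
    have hcongr : (fun i => (jl R lam (φ (ψ i))).map
        (continuous_fst : Continuous (Prod.fst : C(unitInterval, ℂ) × H984N.X →
          C(unitInterval, ℂ))).measurable.aemeasurable) = fun i => H984H.lawH (φ (ψ i)) := by
      funext i
      apply Subtype.ext
      exact jl_fst R lam (φ (ψ i))
    rw [hcongr] at m1
    have := tendsto_nhds_unique m1 hlim'
    have h5 := congrArg (fun ν : ProbabilityMeasure C(unitInterval, ℂ) =>
      (ν : Measure C(unitInterval, ℂ))) this
    exact h5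
  · have hcongr : (fun i => (jl R lam (φ (ψ i))).map
        (continuous_snd : Continuous (Prod.snd : C(unitInterval, ℂ) × H984N.X →
          H984N.X)).measurable.aemeasurable) = fun i => R.law (mesh lam (φ (ψ i))) := by
      funext i
      apply Subtype.ext
      exact jl_snd h2 R lam (φ (ψ i))
    rw [hcongr] at m2
    exact m2
  · intro η hη
    obtain ⟨N, hN⟩ := h1 R ρ lam r hρ hA hB hH hlam hr η hη
    have hG : IsClosed (K r lam η) := h3.1 _ _ _
    rw [ae_iff]
    have h4 := ProbabilityMeasure.le_liminf_measure_open_of_tendsto hP' hG.isOpen_compl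
    have h5 : ∀ᶠ i in atTop, (jl R lam (φ (ψ i)) : Measure (C(unitInterval, ℂ) × H984N.X))
        (K r lam η)ᶜ ≤ 0 := by
      filter_upwards [(hφ.comp hψ.tendsto_atTop).eventually_ge_atTop N] with i hi
      show (H984H.perc.map (jv R lam (φ (ψ i)))) _ ≤ 0
      rw [Measure.map_apply (jv_meas R lam _) hG.measurableSet.compl]
      have : jv R lam (φ (ψ i)) ⁻¹' (K r lam η)ᶜ = ∅ := by
        ext ω
        simp only [Set.mem_preimage, Set.mem_compl_iff, Set.mem_empty_iff_false, iff_false,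
          not_not]
        exact hN _ hi ω
      rw [this, measure_empty]
    have h6 : liminf (fun i => (jl R lam (φ (ψ i)) : Measure (C(unitInterval, ℂ) × H984N.X))
        (K r lam η)ᶜ) atTop ≤ 0 := by
      calc _ ≤ liminf (fun _ : ℕ => (0 : ENNReal)) atTop := liminf_le_liminf h5
        _ = 0 := liminf_const _
    exact le_antisymm (h4.trans h6) bot_le

/-- Joint limits for general rectangles and radii. -/
theorem s_jntr (h1 : S_CPL) (h3 : S_KCL) {c C : ℝ} (hc : 0 < c) (hC : 0 < C)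
    (hL : LowA c (1/4)) (hU : TwoUp C (1/4)) : Pool.Agent.L0h89.HT.S_JNTR :=
  s_jnt2 (s_clo2 h1) s_law h3 hc hC hL hU

end Pool.Agent.L0h37.HT
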