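import Pool.Agent.L0h89.HT.StmJ

/-! Module G of the project HT: the transfer principle by disintegration. -/

set_option autoImplicit false

namespace Pool.Agent.L0h37.HT

open MeasureTheory ProbabilityTheory Filter Topology
open Pool.Agent.L0h89.HT

theorem s_trf (hJ : S_JNT) (hK : S_KCL) : S_TRF := by
  intro ρ lam hρ hlam μ hμ Q hQ
  obtain ⟨P, h1, ⟨ν, hν, h2⟩, h3⟩ := hJ ρ lam hρ hlam μ hμ
  have hQ' := hQ ν hν
  rw [← h2] at hQ'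
  have a1 : ∀ᵐ q ∂(P : Measure (C(unitInterval, ℂ) × H984N.X)), Q q.2 :=
    ae_of_ae_map measurable_snd.aemeasurable hQ'
  have a2 : ∀ᵐ q ∂(P : Measure (C(unitInterval, ℂ) × H984N.X)),
      ∀ m : ℕ, q ∈ K (lam * ρ / 2) lam (1 / ((m : ℝ) + 1)) := by
    rw [ae_all_iff]
    intro m
    exact h3 _ (by positivity)
  have a3 := a1.and a2
  have hd : (P : Measure (C(unitInterval, ℂ) × H984N.X)).fst ⊗ₘ
      (P : Measure (C(unitInterval, ℂ) × H984N.X)).condKernel =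
      (P : Measure (C(unitInterval, ℂ) × H984N.X)) :=
    Measure.disintegrate _ _
  rw [← hd] at a3
  have a4 := Measure.ae_ae_of_ae_compProd a3
  have hfst : (P : Measure (C(unitInterval, ℂ) × H984N.X)).fst = (μ : Measure C(unitInterval, ℂ)) := h1
  rw [hfst] at a4
  filter_upwards [a4] with f hf hfn
  obtain ⟨p, hp1, hp2⟩ := hf.exists
  exact ⟨p, hp1, hK.2.2 (lam * ρ / 2) lam (f, p) hlam hfn hp2⟩

theorem s_tr1 (hT : S_TRF) : S_TR1 := by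
  intro μ hμ Q hQ
  have h : ∀ n : ℕ, ∀ᵐ f ∂(μ : Measure C(unitInterval, ℂ)), ‖f‖ < 1 * ((n : ℝ) + 1) / 2 →
      ∃ p, Q ((n : ℝ) + 1) p ∧ Rev 1 f p := by
    intro n
    have hn : (0 : ℝ) < (n : ℝ) + 1 := by positivity
    exact hT ((n : ℝ) + 1) 1 hn one_pos μ hμ (Q ((n : ℝ) + 1)) (fun ν hν => hQ _ hn ν hν)
  rw [← ae_all_iff] at h
  filter_upwards [h] with f hf
  obtain ⟨n, hn⟩ := exists_nat_gt (2 * ‖f‖)
  have h1 : ‖f‖ < 1 * ((n : ℝ) + 1) / 2 := by linarith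
  obtain ⟨p, hp1, hp2⟩ := hf n h1
  exact ⟨(n : ℝ) + 1, p, by linarith, hp1, hp2⟩

theorem s_tr2 (hT : S_TRF) : S_TR2 := by
  intro μ hμ Q hQ
  have h : ∀ n : ℕ, ∀ᵐ f ∂(μ : Measure C(unitInterval, ℂ)), ‖f‖ < ((n : ℝ) + 1) * 1 / 2 →
      ∃ p, Q p ∧ Rev ((n : ℝ) + 1) f p := by
    intro n
    have hn : (0 : ℝ) < (n : ℝ) + 1 := by positivity
    exact hT 1 ((n : ℝ) + 1) one_pos hn μ hμ Q (fun ν hν => hQ ν hν)
  rw [← ae_all_iff] at h
  filter_upwards [h] with f hf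
  obtain ⟨n, hn⟩ := exists_nat_gt (2 * ‖f‖)
  have h1 : ‖f‖ < ((n : ℝ) + 1) * 1 / 2 := by linarith
  obtain ⟨p, hp1, hp2⟩ := hf n h1
  exact ⟨(n : ℝ) + 1, by positivity, p, hp1, hp2⟩

end Pool.Agent.L0h37.HT
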