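import Pool.Agent.L0h37.HT.D

/-! Module G of the project HT for general rectangles. -/

set_option autoImplicit false

namespace Pool.Agent.L0h37.HT

open MeasureTheory ProbabilityTheory Filter Topology
open Pool.Agent.L0h89.HT

/-- The transfer principle for general rectangles. -/
def S_TRFR : Prop := ∀ (R : H984N.Rect) (ρ lam : ℝ), 0 < ρ → ρ ≤ R.A → ρ ≤ R.B → ρ ≤ R.H →
  0 < lam → ∀ μ : ProbabilityMeasure C(unitInterval, ℂ), IsLimH μ → ∀ Q : H984N.X → Prop,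
    (∀ ν : ProbabilityMeasure H984N.X, IsLimN R ν → ∀ᵐ p ∂(ν : Measure H984N.X), Q p) →
    ∀ᵐ f ∂(μ : Measure C(unitInterval, ℂ)), ‖f‖ < lam * ρ / 2 → ∃ p, Q p ∧ Rev lam f p

theorem s_trfR (hJ : S_JNTR) (hK : S_KCL) : S_TRFR := by
  intro R ρ lam hρ hA hB hH hlam μ hμ Q hQ
  obtain ⟨P, h1, ⟨ν, hν, h2⟩, h3⟩ := hJ R ρ lam hρ hA hB hH hlam μ hμ
  have hQ' := hQ ν hν
  rw [← h2] at hQ'
  have a1 : ∀ᵐ q ∂(P : Measure (C(unitInterval, ℂ) × H984N.X)), Q q.2 :=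
    ae_of_ae_map measurable_snd.aemeasurable hQ'
  have a2 : ∀ᵐ q ∂(P : Measure (C(unitInterval, ℂ) × H984N.X)),
      ∀ m : ℕ, q ∈ K (lam * ρ / 2) lam (1 / ((m : ℝ) + 1)) := by
    rw [ae_all_iff]
    intro m
    exact h3 _ (by positivity)
  have a3 := a1.and a2
  have hd : (P : Measure (C(unitInterval, ℂ) × H984N.X)).fst ⊗ₘ
      (P : Measure (C(unitInterval, ℂ) × H984N.X)).condKernel =
      (P : Measure (C(unitInterval, ℂ) × H984N.X)) :=
    Measure.disintegrate _ _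
  rw [← hd] at a3
  have a4 := Measure.ae_ae_of_ae_compProd a3
  have hfst : (P : Measure (C(unitInterval, ℂ) × H984N.X)).fst =
    (μ : Measure C(unitInterval, ℂ)) := h1
  rw [hfst] at a4
  filter_upwards [a4] with f hf hfn
  obtain ⟨p, hp1, hp2⟩ := hf.exists
  exact ⟨p, hp1, hK.2.2 (lam * ρ / 2) lam (f, p) hlam hfn hp2⟩

end Pool.Agent.L0h37.HT
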